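import Pool.Agent.EUL22.Fin

/-!
Hölder Euler flows with the local energy inequality conserve energy if they are plane regular
off a set of sigma-finite `(3 + β)`-dimensional Hausdorff measure.
-/

set_option autoImplicit false

open MeasureTheory Set Topology

namespace Pool.Agent.Results.MP_1a1159_an.PlaneRegular

/-- Space `ℝ³`. -/
abbrev X : Type := Fin 3 → ℝ

/-- The open slab `(0,T) × ℝ³` of space-time. -/
def slab (T : ℝ) : Set (ℝ × X) := Set.Ioo (0 : ℝ) T ×ˢ (Set.univ : Set X)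

/-- The partial derivative `∂_t f` of a function on space-time. -/
noncomputable def dt (f : ℝ × X → ℝ) (z : ℝ × X) : ℝ := fderiv ℝ f z (1, 0)

/-- The partial derivative `∂_j f` of a function on space-time. -/
noncomputable def dx (j : Fin 3) (f : ℝ × X → ℝ) (z : ℝ × X) : ℝ :=
  fderiv ℝ f z (0, Pi.single j 1)

/-- Smooth functions with compact support in the slab. -/
structure IsTest (T : ℝ) (ψ : ℝ × X → ℝ) : Prop where
  smooth : ContDiff ℝ ((⊤ : ℕ∞) : WithTop ℕ∞) ψ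
  compact : HasCompactSupport ψ
  support : tsupport ψ ⊆ slab T

/-- `div v = 0` in the sense of distributions. -/
def DivergenceFree (T : ℝ) (v : ℝ × X → X) : Prop :=
  ∀ ψ, IsTest T ψ → ∫ z, ∑ i, v z i * dx i ψ z = 0

/-- `∂_t v + div (v ⊗ v) + ∇p = 0` in the sense of distributions. -/
def Momentum (T : ℝ) (v : ℝ × X → X) (p : ℝ × X → ℝ) : Prop :=
  ∀ φ : Fin 3 → ℝ × X → ℝ, (∀ i, IsTest T (φ i)) →
    ∫ z, ∑ i, (v z i * dt (φ i) z + ∑ j, v z i * v z j * dx j (φ i) z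
      + p z * dx i (φ i) z) = 0

/-- The local energy inequality in the sense of distributions. -/
def LocalEnergyInequality (T : ℝ) (v : ℝ × X → X) (p : ℝ × X → ℝ) : Prop :=
  ∀ ψ, IsTest T ψ → (∀ z, 0 ≤ ψ z) →
    0 ≤ ∫ z, ((∑ i, v z i ^ 2) / 2 * dt ψ z
      + ((∑ i, v z i ^ 2) / 2 + p z) * ∑ j, v z j * dx j ψ z)

/-- `(v, p)` is a weak solution of the Euler equations on `(0,T) × ℝ³`, periodic in space,
with `v` of class `C^β` on `[0,T] × ℝ³`, which satisfies the local energy inequality. -/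
structure DissipativeFlow (β : NNReal) (T : ℝ) (v : ℝ × X → X) (p : ℝ × X → ℝ) : Prop where
  continuous_v : Continuous v
  continuous_p : Continuous p
  holder : ∃ C : NNReal, HolderOnWith C β v (Set.Icc (0 : ℝ) T ×ˢ (Set.univ : Set X))
  periodic : ∀ (t : ℝ) (x : X) (k : Fin 3 → ℤ),
    v (t, x + fun i => (k i : ℝ)) = v (t, x) ∧ p (t, x + fun i => (k i : ℝ)) = p (t, x)
  divergence_free : DivergenceFree T v
  momentum : Momentum T v p
  local_energy : LocalEnergyInequality T v p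

/-- `v` is `g`-Hölder with constant `C` along the direction `a` inside `U`. -/
def HolderAlong (v : ℝ × X → X) (U : Set (ℝ × X)) (a : X) (g C : ℝ) : Prop :=
  ∀ (t : ℝ) (x : X) (s : ℝ), (t, x) ∈ U → (t, x + s • a) ∈ U →
    ‖v (t, x + s • a) - v (t, x)‖ ≤ C * |s| ^ g

/-- `v` is plane regular at `z₀`: in a neighbourhood `U` of `z₀` in space-time it is `g₂`-Hölder
in space and `g₁`-Hölder along the directions of one plane (spanned by the orthonormal `a`,
`b`), where `g₁ + 2 g₂ > 1`. -/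
def PlaneRegularAt (v : ℝ × X → X) (z₀ : ℝ × X) : Prop :=
  ∃ U ∈ 𝓝 z₀, ∃ a b : X,
    ∑ i, a i * a i = 1 ∧ ∑ i, b i * b i = 1 ∧ ∑ i, a i * b i = 0 ∧
    ∃ g₁ g₂ C : ℝ, 0 < g₁ ∧ g₁ ≤ 1 ∧ 0 < g₂ ∧ g₂ ≤ 1 ∧ 1 < g₁ + 2 * g₂ ∧
      (∀ (t : ℝ) (x y : X), (t, x) ∈ U → (t, y) ∈ U →
        ‖v (t, x) - v (t, y)‖ ≤ C * ‖x - y‖ ^ g₂) ∧
      HolderAlong v U a g₁ C ∧ HolderAlong v U b g₁ C

/-- The kinetic energy at time `t`. -/
noncomputable def energy (v : ℝ × X → X) (t : ℝ) : ℝ :=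
  ∫ x in Set.Icc (0 : X) 1, ∑ i, v (t, x) i ^ 2

theorem weakMom_of_momentum {T : ℝ} {v : ℝ × X → X} {p : ℝ × X → ℝ} (h : Momentum T v p) :
    EUL22.WeakMom T v p := by
  intro φ h1 h2 h3
  have hc : ∀ i, ContDiff ℝ ((⊤ : ℕ∞) : WithTop ℕ∞) (fun z => φ z i) := fun i =>
    contDiff_pi.mp h1 i
  have ht : ∀ i, IsTest T (fun z => φ z i) := by
    intro i
    refine ⟨hc i, h2.comp_left (g := fun x : X => x i) rfl, Subset.trans ?_ h3⟩
    refine closure_mono fun z hz h0 => hz ?_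
    simp only [h0, Pi.zero_apply]
  have h4 := h (fun i z => φ z i) ht
  have hfd : ∀ (z w : ℝ × X) (i : Fin 3), fderiv ℝ φ z w i = fderiv ℝ (fun z => φ z i) z w := by
    intro z w i
    have hd : DifferentiableAt ℝ φ z := h1.differentiable (by simp) z
    have h5 : HasFDerivAt (fun z => φ z i)
        ((ContinuousLinearMap.proj (R := ℝ) (φ := fun _ : Fin 3 => ℝ) i).comp (fderiv ℝ φ z)) z :=
      (ContinuousLinearMap.proj (R := ℝ) (φ := fun _ : Fin 3 => ℝ) i).hasFDerivAt.comp z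
        hd.hasFDerivAt
    rw [h5.fderiv]
    rfl
  refine Eq.trans ?_ h4
  refine integral_congr_ae (Filter.Eventually.of_forall fun z => ?_)
  simp only [hfd, dt, dx, Finset.sum_add_distrib, Finset.mul_sum]

/-- Let `(v, p)` be a `C^β` weak solution of the Euler equations with the local energy
inequality, for some `β > 0`. If the points of `(0,T) × ℝ³` at which `v` is not plane regular
lie in a countable union of sets of finite `(3 + β)`-dimensional Hausdorff measure, then the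
kinetic energy is constant on `[0,T]`. -/
theorem result (β : NNReal) (hβ : 0 < β) (T : ℝ) (hT : 0 < T)
    (v : ℝ × X → X) (p : ℝ × X → ℝ) (hvp : DissipativeFlow β T v p)
    (A : ℕ → Set (ℝ × X)) (hA : ∀ n, μH[3 + (β : ℝ)] (A n) < ⊤)
    (hcov : ∀ z ∈ slab T, ¬ PlaneRegularAt v z → z ∈ ⋃ n, A n) :
    ∀ t₁ ∈ Set.Icc (0 : ℝ) T, ∀ t₂ ∈ Set.Icc (0 : ℝ) T, energy v t₁ = energy v t₂ := by
  have hd : EUL22.WeakDiv T v := fun ψ h1 h2 h3 => hvp.divergence_free ψ ⟨h1, h2, h3⟩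
  have hm : EUL22.WeakMom T v p := weakMom_of_momentum hvp.momentum
  have hL : EUL22.WeakLEI T v p := fun ψ h1 h2 h3 h4 => hvp.local_energy ψ ⟨h1, h2, h3⟩ h4
  have hcov' : ∀ z ∈ Set.Ioo (0 : ℝ) T ×ˢ (Set.univ : Set (Fin 3 → ℝ)),
      ¬ EUL22.PlaneRegularAt v z → z ∈ ⋃ n, A n := hcov
  have h := EUL22.energy_const hvp.continuous_v hvp.continuous_p hT hvp.periodic
    (fun ψ h1 h2 h3 h4 => EUL22.Dis_eq_zero_of_nonneg hvp.continuous_v hvp.continuous_p hβ
      hvp.holder hd hm hL hA hcov' h1 h2 h3 h4)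
  intro t₁ h1 t₂ h2
  have h3 := h t₁ h1 t₂ h2
  have e : ∀ t, energy v t
      = 2 * EUL22.avg (fun z => (∑ i : Fin 3, v z i ^ 2) / 2) t := by
    intro t
    unfold energy EUL22.avg
    rw [← integral_const_mul]
    refine integral_congr_ae (Filter.Eventually.of_forall fun x => ?_)
    simp only
    ring
  rw [e, e, h3]

end Pool.Agent.Results.MP_1a1159_an.PlaneRegular
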